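import Mathlib

/-!
# Alperin–McKay (MP_657073_al): elementary definitions

`integralClosure ℤ ℂ` is the ring of algebraic integers, `𝔪` a maximal ideal of it containing the
prime `ℓ`.
-/

open scoped Classical

namespace AMx

/-! ## Statement-level definitions (these go into the hand-in) -/

/-- Complex irreducible characters of the group `G`. -/
def Irr (G : Type) [Group G] : Set (G → ℂ) :=
  {χ | ∃ (n : ℕ) (ρ : Representation ℂ G (Fin n → ℂ)), ρ.IsIrreducible ∧ ρ.character = χ}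

/-- Congruence of complex numbers modulo an ideal of the ring of algebraic integers. -/
def Cong (𝔪 : Ideal (integralClosure ℤ ℂ)) (a b : ℂ) : Prop :=
  ∃ c ∈ 𝔪, (c : ℂ) = a - b

/-- For `j : N →* G` and `ψ : N → ℂ`: the sum of `ψ y / ψ 1` over the `y : N` with `j y`
conjugate to `x` in `G`. For `N = G`, `j = id` and `ψ` a character this is the central character
`ω_ψ` at the class sum of `x`, that is `|x^G| ψ(x) / ψ(1)`. -/
noncomputable def cen {N G : Type} [Group N] [Fintype N] [Group G] (j : N →* G) (ψ : N → ℂ)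
    (x : G) : ℂ :=
  (∑ y : N, if IsConj x (j y) then ψ y else 0) / ψ 1

/-- `χ` and `χ'` have congruent central characters, i.e. lie in the same `ℓ`-block. -/
def SameBlock {G : Type} [Group G] [Fintype G] (𝔪 : Ideal (integralClosure ℤ ℂ))
    (χ χ' : G → ℂ) : Prop :=
  ∀ x : G, Cong 𝔪 (cen (MonoidHom.id G) χ x) (cen (MonoidHom.id G) χ' x)

/-- `D` is a defect group of the `ℓ`-block of `χ` (min-max characterisation). -/
def IsDefect {G : Type} [Group G] [Fintype G] (ℓ : ℕ) (𝔪 : Ideal (integralClosure ℤ ℂ))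
    (χ : G → ℂ) (D : Subgroup G) : Prop :=
  IsPGroup ℓ D ∧
  (∃ x : G, ¬ Cong 𝔪 (cen (MonoidHom.id G) χ x) 0 ∧ D ≤ Subgroup.centralizer {x} ∧
    ¬ ℓ ∣ D.relIndex (Subgroup.centralizer {x})) ∧
  ∀ x : G, ¬ Cong 𝔪 (cen (MonoidHom.id G) χ x) 0 →
    ∃ g : G, ∀ d ∈ D, g * d * g⁻¹ ∈ Subgroup.centralizer {x}

/-- The block of `χ` is induced from the block of `ψ` along `j : N →* G` (Brauer induction):
`ω_χ(x) ≡ ∑_{y ∈ x^G ∩ N} ψ y / ψ 1`. -/
def Corr {N G : Type} [Group N] [Fintype N] [Group G] [Fintype G]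
    (𝔪 : Ideal (integralClosure ℤ ℂ)) (j : N →* G) (χ : G → ℂ) (ψ : N → ℂ) : Prop :=
  ∀ x : G, Cong 𝔪 (cen (MonoidHom.id G) χ x) (cen j ψ x)

/-- number of irreducible characters of height zero in the block of `χ` with defect group `D` -/
noncomputable def k0 {G : Type} [Group G] [Fintype G] (ℓ : ℕ)
    (𝔪 : Ideal (integralClosure ℤ ℂ)) (χ : G → ℂ) (D : Subgroup G) : ℕ :=
  Set.ncard {χ' : G → ℂ | χ' ∈ Irr G ∧ SameBlock 𝔪 χ χ' ∧
    ∃ d : ℕ, χ' 1 = d ∧ padicValNat ℓ d = padicValNat ℓ D.index}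

/-- `D`, `χ`, `ψ` are such that the blocks of `χ` (of `G`) and of `ψ` (of the normaliser of `D`)
have defect group `D` and are Brauer correspondents. -/
def Brauer {G : Type} [Group G] [Fintype G] (ℓ : ℕ) (𝔪 : Ideal (integralClosure ℤ ℂ))
    (D : Subgroup G) (χ : G → ℂ) (ψ : Subgroup.normalizer (D : Set G) → ℂ) : Prop :=
  χ ∈ Irr G ∧ ψ ∈ Irr (Subgroup.normalizer (D : Set G)) ∧ IsDefect ℓ 𝔪 χ D ∧
    IsDefect ℓ 𝔪 ψ (D.subgroupOf (Subgroup.normalizer (D : Set G))) ∧
    Corr 𝔪 (Subgroup.normalizer (D : Set G)).subtype χ ψ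

/-- `P (k₀(b)) (k₀(B))` for all blocks `b` of `G` with Brauer correspondents `B`. -/
def AMrel (ℓ : ℕ) (𝔪 : Ideal (integralClosure ℤ ℂ)) (P : ℕ → ℕ → Prop) (G : Type) [Group G]
    [Fintype G] : Prop :=
  ∀ (D : Subgroup G) (χ : G → ℂ) (ψ : Subgroup.normalizer (D : Set G) → ℂ), Brauer ℓ 𝔪 D χ ψ →
    P (k0 ℓ 𝔪 χ D) (k0 ℓ 𝔪 ψ (D.subgroupOf (Subgroup.normalizer (D : Set G))))

/-! ## Functional characterisation of irreducible characters -/

section fn

variable {G : Type} [Group G]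

/-- class functions -/
def CF (a : G → ℂ) : Prop := ∀ g x, a (g * x * g⁻¹) = a x

/-- convolution -/
noncomputable def conv [Fintype G] (a b : G → ℂ) : G → ℂ := fun x => ∑ y, a y * b (y⁻¹ * x)

/-- functional description of irreducible characters -/
structure IsIrr [Fintype G] (χ : G → ℂ) : Prop where
  pos : ∃ r : ℝ, 0 < r ∧ χ 1 = r
  cf : CF χ
  mul : ∀ a b : G → ℂ, CF a → CF b →
    (∑ x, conv a b x * χ x) * χ 1 = (∑ x, a x * χ x) * ∑ x, b x * χ x
  norm : ∑ x, χ x * χ x⁻¹ = Nat.card G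

end fn

/-! ## The coprime affine situation -/

/-- `V` is an abelian normal `ℓ'`-subgroup of `X`, `lam` a linear character of `V` (extended by
zero to `X`) with stabiliser `V · io(T)`, `io : T → X` injective and `V ∩ io(T) = 1`. -/
structure Fr (ℓ : ℕ) (X T : Type) [Group X] [Group T] where
  V : Subgroup X
  norm : V.Normal
  comm : ∀ v ∈ V, ∀ w ∈ V, v * w = w * v
  cop : ¬ ℓ ∣ Nat.card V
  lam : X → ℂ
  lam_off : ∀ x, x ∉ V → lam x = 0
  lam_one : lam 1 = 1
  lam_mul : ∀ v ∈ V, ∀ w ∈ V, lam (v * w) = lam v * lam w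
  io : T →* X
  inj : Function.Injective io
  disj : ∀ t, io t ∈ V → t = 1
  stab : ∀ x, (∀ v ∈ V, lam (x * v * x⁻¹) = lam v) ↔ ∃ v ∈ V, ∃ t, x = v * io t

namespace Fr

variable {ℓ : ℕ} {X T : Type} [Group X] [Group T] [Fintype X] [Fintype T] (F : Fr ℓ X T)

/-- the function `v · io t ↦ lam v * ψ t` on `V · io(T)`, zero elsewhere -/
noncomputable def th (ψ : T → ℂ) : X → ℂ := fun x => ∑ t, F.lam (x * (F.io t)⁻¹) * ψ t

/-- the function `t ↦ ∑_{v ∈ V} a (v · io t) lam v` -/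
noncomputable def ph (a : X → ℂ) : T → ℂ := fun t => ∑ x, a (x * F.io t) * F.lam x

/-- induction of `th ψ` to `X` -/
noncomputable def ind (ψ : T → ℂ) : X → ℂ :=
  fun x => (∑ y, F.th ψ (y * x * y⁻¹)) / (Nat.card F.V * Nat.card T)

/-- the index of `V · io(T)` -/
noncomputable def ix : ℕ := Nat.card X / (Nat.card F.V * Nat.card T)

end Fr

/-- restriction of the coprime affine situation to the normaliser of a subgroup -/
structure LocalFr {ℓ : ℕ} {X T : Type} [Group X] [Group T] (F : Fr ℓ X T) (D : Subgroup T)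
    (F' : Fr ℓ (Subgroup.normalizer ((D.map F.io : Subgroup X) : Set X))
      (Subgroup.normalizer (D : Set T))) : Prop where
  V : ∀ x, x ∈ F'.V ↔ (x : X) ∈ F.V
  lam : ∀ x, F'.lam x = F.lam (x : X)
  io : ∀ t, (F'.io t : X) = F.io (t : T)

end AMx
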