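import Pool.Agent.H4.AM.Defs

/-!
# Alperin–McKay, reduction to `F_p^(N^3) ⋊ S_N`: targets of the modules
-/

open scoped Classical

namespace AMx

/-! ## C. Characters -/

/-- C1: irreducible characters have the functional properties, and integrality -/
def T_C1 : Prop := ∀ (G : Type) [Group G] [Fintype G] (χ : G → ℂ), χ ∈ Irr G →
  IsIrr χ ∧ (∃ d : ℕ, 0 < d ∧ χ 1 = d) ∧ (∀ g, IsIntegral ℤ (χ g)) ∧
    ∀ x, IsIntegral ℤ (cen (MonoidHom.id G) χ x)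

/-- C2: the functional properties characterise irreducible characters -/
def T_C2 : Prop := ∀ (G : Type) [Group G] [Fintype G] (χ : G → ℂ), IsIrr χ → χ ∈ Irr G

/-- C3: a constituent of the restriction along `j`, and its values at central elements -/
def T_C3 : Prop := ∀ (G K : Type) [Group G] [Fintype G] [Group K] [Fintype K] (j : K →* G)
  (χ : G → ℂ), χ ∈ Irr G → ∃ ψ ∈ Irr K, ∀ a : K → ℂ,
    CF (fun g : G => ∑ k, if j k = g then a k else 0) →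
    (∑ k, a k * χ (j k)) / χ 1 = (∑ k, a k * ψ k) / ψ 1

/-! ## L. Congruences -/

/-- L0: `Cong` is compatible with the ring operations on algebraic integers -/
def T_L0 : Prop := ∀ (𝔪 : Ideal (integralClosure ℤ ℂ)), 𝔪.IsMaximal →
  (∀ a, Cong 𝔪 a a) ∧ (∀ a b, Cong 𝔪 a b → Cong 𝔪 b a) ∧
  (∀ a b c, Cong 𝔪 a b → Cong 𝔪 b c → Cong 𝔪 a c) ∧
  (∀ a b c d, Cong 𝔪 a b → Cong 𝔪 c d → Cong 𝔪 (a + c) (b + d)) ∧
  (∀ a b c, IsIntegral ℤ c → Cong 𝔪 a b → Cong 𝔪 (c * a) (c * b)) ∧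
  (∀ (ι : Type) (s : Finset ι) (f g : ι → ℂ), (∀ i ∈ s, Cong 𝔪 (f i) (g i)) →
    Cong 𝔪 (∑ i ∈ s, f i) (∑ i ∈ s, g i)) ∧
  (∀ a b, IsIntegral ℤ a → IsIntegral ℤ b → Cong 𝔪 (a * b) 0 → Cong 𝔪 a 0 ∨ Cong 𝔪 b 0) ∧
  (∀ (ℓ : ℕ) [Fact ℓ.Prime], (ℓ : integralClosure ℤ ℂ) ∈ 𝔪 → ∀ n : ℕ, Cong 𝔪 (n : ℂ) 0 ↔ ℓ ∣ n)

/-- L1: a congruence of central characters holds for all integral class functions -/
def T_L1 : Prop := ∀ (𝔪 : Ideal (integralClosure ℤ ℂ)) (N G : Type) [Group N] [Fintype N]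
  [Group G] [Fintype G] (j : N →* G) (χ : G → ℂ) (ψ : N → ℂ), CF χ →
  (∀ x : G, Cong 𝔪 (cen (MonoidHom.id G) χ x) (cen j ψ x)) →
  ∀ a : G → ℂ, CF a → (∀ x, IsIntegral ℤ (a x)) →
    Cong 𝔪 ((∑ x, a x * χ x) / χ 1) ((∑ y, a (j y) * ψ y) / ψ 1)

/-- L2: an integral class function is nonzero somewhere where the central character is nonzero -/
def T_L2 : Prop := ∀ (𝔪 : Ideal (integralClosure ℤ ℂ)) (G : Type) [Group G] [Fintype G]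
  (χ : G → ℂ), CF χ → (∀ x, IsIntegral ℤ (cen (MonoidHom.id G) χ x)) →
  ∀ a : G → ℂ, CF a → (∀ x, IsIntegral ℤ (a x)) → ¬ Cong 𝔪 ((∑ x, a x * χ x) / χ 1) 0 →
    ∃ x, ¬ Cong 𝔪 (a x) 0 ∧ ¬ Cong 𝔪 (cen (MonoidHom.id G) χ x) 0

/-- L3: sums of invariant functions are congruent to the sum over the fixed points -/
def T_L3 : Prop := ∀ (𝔪 : Ideal (integralClosure ℤ ℂ)) (ℓ : ℕ) [Fact ℓ.Prime],
  (ℓ : integralClosure ℤ ℂ) ∈ 𝔪 → ∀ (Q Ω : Type) [Group Q] [Finite Q] [MulAction Q Ω] [Fintype Ω],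
  IsPGroup ℓ Q → ∀ f : Ω → ℂ, (∀ ω, IsIntegral ℤ (f ω)) → (∀ (q : Q) (ω : Ω), f (q • ω) = f ω) →
    Cong 𝔪 (∑ ω, f ω) (∑ ω : Ω, if (∀ q : Q, q • ω = ω) then f ω else 0)

/-! ## F. The correspondence in the coprime affine situation -/

/-- F0: elementary facts -/
def T_F0 : Prop := ∀ (ℓ : ℕ) (X T : Type) [Group X] [Group T] [Fintype X] [Fintype T]
  (F : Fr ℓ X T),
  F.ix * (Nat.card F.V * Nat.card T) = Nat.card X ∧ 0 < F.ix ∧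
  (∀ v ∈ F.V, IsIntegral ℤ (F.lam v) ∧ F.lam v * F.lam v⁻¹ = 1) ∧
  (∀ ψ : T → ℂ, ∀ v ∈ F.V, ∀ t, F.th ψ (v * F.io t) = F.lam v * ψ t) ∧
  (∀ ψ : T → ℂ, ∀ x, (¬ ∃ v ∈ F.V, ∃ t, x = v * F.io t) → F.th ψ x = 0) ∧
  (∀ ψ : T → ℂ, ∀ v ∈ F.V, ∀ x, F.th ψ (v * x) = F.lam v * F.th ψ x) ∧
  (∀ ψ : T → ℂ, CF ψ → ∀ y x, (∃ v ∈ F.V, ∃ t, y = v * F.io t) →
    F.th ψ (y * x * y⁻¹) = F.th ψ x)

/-- F1: induction -/
def T_F1 : Prop := ∀ (ℓ : ℕ) (X T : Type) [Group X] [Group T] [Fintype X] [Fintype T]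
  (F : Fr ℓ X T),
  (∀ ψ : T → ℂ, CF (F.ind ψ)) ∧
  (∀ ψ : T → ℂ, F.ind ψ 1 = F.ix * ψ 1) ∧
  (∀ ψ : T → ℂ, ∀ a : X → ℂ, CF a → ∑ x, a x * F.ind ψ x = F.ix * ∑ t, F.ph a t * ψ t) ∧
  (∀ ψ : T → ℂ, CF ψ → ∀ t, ∑ x, F.lam x⁻¹ * F.ind ψ (x * F.io t) = Nat.card F.V * ψ t) ∧
  (∀ a : X → ℂ, CF a → CF (F.ph a)) ∧
  (∀ ψ : T → ℂ, (∀ t, IsIntegral ℤ (ψ t)) → CF ψ → ∀ x, IsIntegral ℤ (F.ind ψ x))

/-- F2: `ph` is multiplicative on class functions -/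
def T_F2 : Prop := ∀ (ℓ : ℕ) (X T : Type) [Group X] [Group T] [Fintype X] [Fintype T]
  (F : Fr ℓ X T) (a b : X → ℂ), CF a → CF b → F.ph (conv a b) = conv (F.ph a) (F.ph b)

/-- F3: the bijection between the irreducible characters of `T` and those of `X` above `lam` -/
def T_F3 : Prop := ∀ (ℓ : ℕ) (X T : Type) [Group X] [Group T] [Fintype X] [Fintype T]
  (F : Fr ℓ X T),
  (∀ ψ ∈ Irr T, F.ind ψ ∈ Irr X ∧ ∑ x, F.lam x⁻¹ * F.ind ψ x = Nat.card F.V * ψ 1) ∧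
  (∀ ψ ∈ Irr T, ∀ ψ' ∈ Irr T, F.ind ψ = F.ind ψ' → ψ = ψ') ∧
  (∀ χ ∈ Irr X, ∑ x, F.lam x⁻¹ * χ x ≠ 0 → ∃ ψ ∈ Irr T, χ = F.ind ψ)

/-- F4: integral class functions of `T` lift to integral class functions of `X` -/
def T_F4 : Prop := ∀ (ℓ : ℕ) (X T : Type) [Group X] [Group T] [Fintype X] [Fintype T]
  (F : Fr ℓ X T) (α : T → ℂ), CF α → (∀ t, IsIntegral ℤ (α t)) →
  CF (fun x => F.ind (fun t => α t⁻¹) x⁻¹) ∧
  (∀ x, IsIntegral ℤ (F.ind (fun t => α t⁻¹) x⁻¹)) ∧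
  (∀ ψ ∈ Irr T, (∑ x, F.ind (fun t => α t⁻¹) x⁻¹ * F.ind ψ x) / F.ind ψ 1 =
    Nat.card F.V * ((∑ t, α t * ψ t) / ψ 1)) ∧
  (∀ χ ∈ Irr X, ∑ x, F.lam x⁻¹ * χ x = 0 → ∑ x, F.ind (fun t => α t⁻¹) x⁻¹ * χ x = 0)

/-! ## B. Blocks in the coprime affine situation.
Standing hypotheses: `ℓ` prime, `𝔪` maximal, `ℓ ∈ 𝔪`. -/

/-- the values of the coefficient `c_x(t) = ∑_{v ∈ V, v · io t ~ x} lam v` -/
noncomputable def cc {ℓ : ℕ} {X T : Type} [Group X] [Group T] [Fintype X] (F : Fr ℓ X T)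
    (x : X) (t : T) : ℂ :=
  F.ph (fun y => if IsConj x y then 1 else 0) t

/-- B1: `c_x(t)` modulo `𝔪` only depends on the `v` centralised by an `ℓ`-subgroup centralising
`t` -/
def T_B1 : Prop := ∀ (ℓ : ℕ) [Fact ℓ.Prime] (𝔪 : Ideal (integralClosure ℤ ℂ)), 𝔪.IsMaximal →
  (ℓ : integralClosure ℤ ℂ) ∈ 𝔪 → ∀ (X T : Type) [Group X] [Group T] [Fintype X] [Fintype T]
  (F : Fr ℓ X T) (Q : Subgroup T), IsPGroup ℓ Q → ∀ (x : X) (t : T),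
  Q ≤ Subgroup.centralizer {t} →
  Cong 𝔪 (cc F x t) (∑ v : X, if (∀ q ∈ Q, F.io q * v * (F.io q)⁻¹ = v) ∧ IsConj x (v * F.io t)
    then F.lam v else 0)

/-- B2: same block -/
def T_B2 : Prop := ∀ (ℓ : ℕ) [Fact ℓ.Prime] (𝔪 : Ideal (integralClosure ℤ ℂ)), 𝔪.IsMaximal →
  (ℓ : integralClosure ℤ ℂ) ∈ 𝔪 → ∀ (X T : Type) [Group X] [Group T] [Fintype X] [Fintype T]
  (F : Fr ℓ X T) (ψ : T → ℂ), ψ ∈ Irr T → ∀ χ ∈ Irr X,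
  (SameBlock 𝔪 (F.ind ψ) χ ↔ ∃ ψ' ∈ Irr T, SameBlock 𝔪 ψ ψ' ∧ χ = F.ind ψ')

/-- B3: defect groups -/
def T_B3 : Prop := ∀ (ℓ : ℕ) [Fact ℓ.Prime] (𝔪 : Ideal (integralClosure ℤ ℂ)), 𝔪.IsMaximal →
  (ℓ : integralClosure ℤ ℂ) ∈ 𝔪 → ∀ (X T : Type) [Group X] [Group T] [Fintype X] [Fintype T]
  (F : Fr ℓ X T) (ψ : T → ℂ), ψ ∈ Irr T → ∀ D : Subgroup T, IsDefect ℓ 𝔪 ψ D →
  IsDefect ℓ 𝔪 (F.ind ψ) (D.map F.io)

/-- B4: the number of characters of height zero -/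
def T_B4 : Prop := ∀ (ℓ : ℕ) [Fact ℓ.Prime] (𝔪 : Ideal (integralClosure ℤ ℂ)), 𝔪.IsMaximal →
  (ℓ : integralClosure ℤ ℂ) ∈ 𝔪 → ∀ (X T : Type) [Group X] [Group T] [Fintype X] [Fintype T]
  (F : Fr ℓ X T) (ψ : T → ℂ), ψ ∈ Irr T → ∀ D : Subgroup T, IsPGroup ℓ D →
  k0 ℓ 𝔪 (F.ind ψ) (D.map F.io) = k0 ℓ 𝔪 ψ D

/-- B5: the local situation -/
def T_B5 : Prop := ∀ (ℓ : ℕ) [Fact ℓ.Prime] (X T : Type) [Group X] [Group T] [Fintype X]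
  [Fintype T] (F : Fr ℓ X T) (D : Subgroup T), IsPGroup ℓ D →
  ∃ F' : Fr ℓ (Subgroup.normalizer ((D.map F.io : Subgroup X) : Set X))
      (Subgroup.normalizer (D : Set T)), LocalFr F D F' ∧
    (D.subgroupOf (Subgroup.normalizer (D : Set T))).map F'.io =
      (D.map F.io).subgroupOf (Subgroup.normalizer ((D.map F.io : Subgroup X) : Set X))

/-- B6: Brauer correspondence -/
def T_B6 : Prop := ∀ (ℓ : ℕ) [Fact ℓ.Prime] (𝔪 : Ideal (integralClosure ℤ ℂ)), 𝔪.IsMaximal →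
  (ℓ : integralClosure ℤ ℂ) ∈ 𝔪 → ∀ (X T : Type) [Group X] [Group T] [Fintype X] [Fintype T]
  (F : Fr ℓ X T) (D : Subgroup T) (F' : Fr ℓ (Subgroup.normalizer ((D.map F.io : Subgroup X) : Set X))
      (Subgroup.normalizer (D : Set T))), LocalFr F D F' → IsPGroup ℓ D →
  ∀ (χ : T → ℂ) (ψ : Subgroup.normalizer (D : Set T) → ℂ), χ ∈ Irr T →
    ψ ∈ Irr (Subgroup.normalizer (D : Set T)) →
    IsDefect ℓ 𝔪 ψ (D.subgroupOf (Subgroup.normalizer (D : Set T))) →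
    Corr 𝔪 (Subgroup.normalizer (D : Set T)).subtype χ ψ →
    Corr 𝔪 (Subgroup.normalizer ((D.map F.io : Subgroup X) : Set X)).subtype (F.ind χ) (F'.ind ψ)

/-- B7: the coprime affine reduction -/
def T_B7 : Prop := ∀ (ℓ : ℕ) [Fact ℓ.Prime] (𝔪 : Ideal (integralClosure ℤ ℂ)), 𝔪.IsMaximal →
  (ℓ : integralClosure ℤ ℂ) ∈ 𝔪 → ∀ (X T : Type) [Group X] [Group T] [Fintype X] [Fintype T]
  (P : ℕ → ℕ → Prop), Nonempty (Fr ℓ X T) → AMrel ℓ 𝔪 P X → AMrel ℓ 𝔪 P T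

/-! ## P. Direct products -/

/-- P1: irreducible characters of a direct product -/
def T_P1 : Prop := ∀ (G K : Type) [Group G] [Fintype G] [Group K] [Fintype K] (φ : G × K → ℂ),
  φ ∈ Irr (G × K) ↔ ∃ χ ∈ Irr G, ∃ ψ ∈ Irr K, φ = fun p => χ p.1 * ψ p.2

/-- P2: blocks of a direct product -/
def T_P2 : Prop := ∀ (ℓ : ℕ) [Fact ℓ.Prime] (𝔪 : Ideal (integralClosure ℤ ℂ)), 𝔪.IsMaximal →
  (ℓ : integralClosure ℤ ℂ) ∈ 𝔪 → ∀ (G K : Type) [Group G] [Fintype G] [Group K] [Fintype K]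
  (χ : G → ℂ) (ψ : K → ℂ), χ ∈ Irr G → ψ ∈ Irr K →
  (∀ χ' ∈ Irr G, ∀ ψ' ∈ Irr K,
    (SameBlock 𝔪 (fun p : G × K => χ p.1 * ψ p.2) (fun p => χ' p.1 * ψ' p.2) ↔
      SameBlock 𝔪 χ χ' ∧ SameBlock 𝔪 ψ ψ')) ∧
  ∀ (D : Subgroup G) (E : Subgroup K), IsDefect ℓ 𝔪 χ D → IsDefect ℓ 𝔪 ψ E →
    IsDefect ℓ 𝔪 (fun p : G × K => χ p.1 * ψ p.2) (D.prod E) ∧
    k0 ℓ 𝔪 (fun p : G × K => χ p.1 * ψ p.2) (D.prod E) = k0 ℓ 𝔪 χ D * k0 ℓ 𝔪 ψ E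

/-- P3: squares -/
def T_P3 : Prop := ∀ (ℓ : ℕ) [Fact ℓ.Prime] (𝔪 : Ideal (integralClosure ℤ ℂ)), 𝔪.IsMaximal →
  (ℓ : integralClosure ℤ ℂ) ∈ 𝔪 → ∀ (G : Type) [Group G] [Fintype G] (P : ℕ → ℕ → Prop),
  AMrel ℓ 𝔪 P (G × G) → AMrel ℓ 𝔪 (fun a b => P (a * a) (b * b)) G

/-! ## X. The groups `F_p^(N^3) ⋊ S_N` -/

/-- the action of `S_N` on the functions `(Fin N)^3 → ZMod p` -/
def actX (p N : ℕ) : Equiv.Perm (Fin N) →*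
    MulAut (Multiplicative (Fin N × Fin N × Fin N → ZMod p)) where
  toFun σ :=
    { toFun := fun f => Multiplicative.ofAdd
        (fun r => f.toAdd (σ⁻¹ r.1, σ⁻¹ r.2.1, σ⁻¹ r.2.2))
      invFun := fun f => Multiplicative.ofAdd
        (fun r => f.toAdd (σ r.1, σ r.2.1, σ r.2.2))
      left_inv := fun f => by
        apply Multiplicative.toAdd.injective
        funext r
        simp
      right_inv := fun f => by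
        apply Multiplicative.toAdd.injective
        funext r
        simp
      map_mul' := fun f g => rfl }
  map_one' := by
    ext f
    rfl
  map_mul' σ τ := by
    ext f
    rfl

/-- the group `F_p^(N^3) ⋊ S_N` of order `p^(N^3) N!` -/
abbrev XG (p N : ℕ) : Type :=
  Multiplicative (Fin N × Fin N × Fin N → ZMod p) ⋊[actX p N] Equiv.Perm (Fin N)

/-- X1: powers of a finite group are stabilisers -/
def T_X1 : Prop := ∀ (ℓ p : ℕ) [Fact ℓ.Prime] [Fact p.Prime], ℓ ≠ p → p ≠ 2 →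
  ∀ (H : Type) [Group H] [Fintype H] (m : ℕ) (Y : Subgroup (XG p (2 * (Nat.card H * m)))),
    commutator (XG p (2 * (Nat.card H * m))) ≤ Y → Nonempty (Fr ℓ Y (Fin m → H))

/-- X2: the commutator subgroup is perfect -/
def T_X2 : Prop := ∀ (p N : ℕ) [Fact p.Prime], 5 ≤ N →
  commutator (commutator (XG p N)) = ⊤

/-! ## The main theorem -/

/-- iterated direct squares -/
def T_P4 : Prop := ∀ (ℓ : ℕ) [Fact ℓ.Prime] (𝔪 : Ideal (integralClosure ℤ ℂ)), 𝔪.IsMaximal →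
  (ℓ : integralClosure ℤ ℂ) ∈ 𝔪 → ∀ (G : Type) [Group G] [Fintype G] (P : ℕ → ℕ → Prop) (k : ℕ),
  AMrel ℓ 𝔪 P (Fin (2 ^ k) → G) → AMrel ℓ 𝔪 (fun a b => P (a ^ 2 ^ k) (b ^ 2 ^ k)) G

/-- `k₀(b) ≤ c k₀(B)` for all blocks of `G` -/
def AMle (ℓ : ℕ) (𝔪 : Ideal (integralClosure ℤ ℂ)) (c : ℝ) (G : Type) [Group G] [Fintype G] :
    Prop :=
  AMrel ℓ 𝔪 (fun a b => (a : ℝ) ≤ c * b) G

/-- `k₀(B) ≤ c k₀(b)` for all blocks of `G` -/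
def AMge (ℓ : ℕ) (𝔪 : Ideal (integralClosure ℤ ℂ)) (c : ℝ) (G : Type) [Group G] [Fintype G] :
    Prop :=
  AMrel ℓ 𝔪 (fun a b => (b : ℝ) ≤ c * a) G

/-- the main theorem -/
def T_MAIN : Prop := ∀ (ℓ p : ℕ) [Fact ℓ.Prime] [Fact p.Prime], ℓ ≠ p → p ≠ 2 →
  ∀ (𝔪 : Ideal (integralClosure ℤ ℂ)), 𝔪.IsMaximal → (ℓ : integralClosure ℤ ℂ) ∈ 𝔪 →
  -- perfectness of the commutator subgroup of `XG p N`
  (∀ N, 5 ≤ N → commutator (commutator (XG p N)) = ⊤) ∧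
  -- one sequence of groups suffices, even asymptotically
  (∀ Y : (N : ℕ) → Subgroup (XG p N), (∀ N, commutator (XG p N) ≤ Y N) →
    ((∀ ε : ℝ, 0 < ε → ∃ N₀ : ℕ, ∀ N, N₀ ≤ N → ∀ [Fintype (Y N)],
        AMle ℓ 𝔪 (Real.exp (ε * N)) (Y N)) →
      ∀ (G : Type) [Group G] [Fintype G], AMle ℓ 𝔪 1 G) ∧
    ((∀ ε : ℝ, 0 < ε → ∃ N₀ : ℕ, ∀ N, N₀ ≤ N → ∀ [Fintype (Y N)],
        AMge ℓ 𝔪 (Real.exp (ε * N)) (Y N)) →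
      ∀ (G : Type) [Group G] [Fintype G], AMge ℓ 𝔪 1 G)) ∧
  -- perfect groups, with error factor `|H|^ε`
  ((∀ ε : ℝ, 0 < ε → ∃ n₀ : ℕ, ∀ (H : Type) [Group H] [Fintype H], commutator H = ⊤ →
      n₀ ≤ Nat.card H → AMle ℓ 𝔪 ((Nat.card H : ℝ) ^ ε) H) →
    ∀ (G : Type) [Group G] [Fintype G], AMle ℓ 𝔪 1 G) ∧
  ((∀ ε : ℝ, 0 < ε → ∃ n₀ : ℕ, ∀ (H : Type) [Group H] [Fintype H], commutator H = ⊤ →
      n₀ ≤ Nat.card H → AMge ℓ 𝔪 ((Nat.card H : ℝ) ^ ε) H) →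
    ∀ (G : Type) [Group G] [Fintype G], AMge ℓ 𝔪 1 G)

end AMx
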